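import Pool.Agent.Helper89.TC.Gdm

/-!
# Project TC: two colours, incomplete hosts, explicit cubic bound
-/

set_option autoImplicit false

namespace Pool.Agent.Helper89.TC

open Finset Pool.Agent.BR2

variable {n e : ℕ}

private theorem sum_deg' {H : Finset (Finset (Fin n))} (h3 : ∀ A ∈ H, A.card = 3) :
    ∑ x : Fin n, deg H x = 3 * H.card := by
  have h1 : ∀ x : Fin n, deg H x = ∑ l ∈ H, if x ∈ l then 1 else 0 := by
    intro x
    unfold deg
    rw [card_filter]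
  rw [sum_congr rfl (fun x _ => h1 x), sum_comm]
  have h2 : ∀ l ∈ H, (∑ x : Fin n, if x ∈ l then 1 else 0) = 3 := by
    intro l hl
    rw [← card_filter, filter_mem_eq_inter, univ_inter, h3 l hl]
  rw [sum_congr rfl h2, sum_const, smul_eq_mul, mul_comm]

private theorem free_of {R : Finset (Finset (Fin n))}
    (hno : ∀ S ⊆ R, S.card = e → ¬ (U S).card ≤ e + 3) : Free R e := by
  intro S hS h1
  have := hno S hS h1
  omega

private theorem sq_le_cube (he : 3 ≤ e) : (e + 2) ^ 2 ≤ e ^ 3 := by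
  obtain ⟨k, rfl⟩ := Nat.exists_eq_add_of_le he
  have h : (3 + k + 2) ^ 2 + (k ^ 3 + 8 * k ^ 2 + 17 * k + 2) = (3 + k) ^ 3 := by ring
  exact Nat.le.intro h

/-- The correction terms at one point. -/
private theorem corr {r b m N : ℤ} (hr : 0 ≤ r) (hb : 0 ≤ b) (hm : 0 ≤ m)
    (h : 2 * (r + b) + m = N) :
    (if 6 * r ≤ N then (N - 4 * r) ^ 2 else 0) + (if 6 * b ≤ N then (N - 4 * b) ^ 2 else 0) ≤
      4 * (r - b) ^ 2 + 6 * N * m := by
  have hN : 0 ≤ N := by linarith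
  have e1 : (N - 4 * r) ^ 2 ≤ 4 * (r - b) ^ 2 + 2 * N * m := by
    have : N - 4 * r = 2 * (b - r) + m := by linarith
    rw [this]
    have h2 : (2 * (b - r) + m) ^ 2 = 4 * (r - b) ^ 2 + m * (4 * (b - r) + m) := by ring
    have h3 : m * (4 * (b - r) + m) ≤ m * (2 * N) := by
      apply mul_le_mul_of_nonneg_left _ hm
      linarith
    rw [h2]; linarith
  have e2 : (N - 4 * b) ^ 2 ≤ 4 * (r - b) ^ 2 + 2 * N * m := by
    have : N - 4 * b = 2 * (r - b) + m := by linarith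
    rw [this]
    have h2 : (2 * (r - b) + m) ^ 2 = 4 * (r - b) ^ 2 + m * (4 * (r - b) + m) := by ring
    have h3 : m * (4 * (r - b) + m) ≤ m * (2 * N) := by
      apply mul_le_mul_of_nonneg_left _ hm
      linarith
    rw [h2]; linarith
  have hNm : 0 ≤ N * m := mul_nonneg hN hm
  have hsq : 0 ≤ 4 * (r - b) ^ 2 := by positivity
  split_ifs with h1 h2 h2
  · -- both degrees are small: many missing pairs at the point
    have h3 : N ≤ 3 * m := by linarith
    have h4 : (N - 4 * r) ^ 2 ≤ N ^ 2 := by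
      apply sq_le_sq'
      · linarith
      · linarith
    have h5 : (N - 4 * b) ^ 2 ≤ N ^ 2 := by
      apply sq_le_sq'
      · linarith
      · linarith
    have h6 : N ^ 2 ≤ N * (3 * m) := by
      rw [sq]
      exact mul_le_mul_of_nonneg_left h3 hN
    nlinarith
  · linarith
  · linarith
  · linarith

/-- **The theorem.** -/
theorem two_colours_robust (he : 3 ≤ e) (hn : 20 * e ^ 3 ≤ n) {H : Finset (Finset (Fin n))}
    (hL : Lin H)
    (hH : 33 * e ^ 2 * (n * (n - 1)) ≤ n * (n - 1) + 33 * e ^ 2 * (6 * H.card))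
    (col : Finset (Fin n) → Fin 2) :
    ∃ S ⊆ H, S.card = e ∧ (U S).card ≤ e + 3 ∧ ∃ i, ∀ A ∈ S, col A = i := by
  by_contra hcon
  push Not at hcon
  set R := H.filter (fun A => col A = 0) with hR
  set B := H.filter (fun A => ¬ col A = 0) with hB
  have hRB : R ∪ B = H := filter_union_filter_not_eq _ _
  have hdis : Disjoint R B := disjoint_filter_filter_not _ _ _
  have hRH : R ⊆ H := filter_subset _ _
  have hBH : B ⊆ H := filter_subset _ _
  have hRL := hL.mono hRH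
  have hBL := hL.mono hBH
  have hRF : Free R e := free_of (by
    intro S hS h1 h2
    obtain ⟨A, hA, hne⟩ := hcon S (hS.trans hRH) h1 h2 0
    exact hne (mem_filter.1 (hS hA)).2)
  have hBF : Free B e := free_of (by
    intro S hS h1 h2
    obtain ⟨A, hA, hne⟩ := hcon S (hS.trans hBH) h1 h2 1
    have := (mem_filter.1 (hS hA)).2
    omega)
  have hn1 : 20 * (e + 2) ^ 2 ≤ n := by
    refine le_trans ?_ hn
    have h1 := sq_le_cube he
    omega
  have cR := Pool.Agent.BR2.col hRL hRF he hn1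
  have cB := Pool.Agent.BR2.col hBL hBF he hn1
  have hg := goodman hL hRB hdis
  have chR := card_Ch hRL
  have chB := card_Ch hBL
  have hnpos : 1 ≤ n := by
    have : 0 < (e + 2) ^ 2 := by positivity
    omega
  set N : ℤ := (n : ℤ) - 1 with hNdef
  have hN0 : 0 ≤ N := by
    have : (1 : ℤ) ≤ (n : ℤ) := by exact_mod_cast hnpos
    linarith
  have hnN : ((n - 1 : ℕ) : ℤ) = N := by
    rw [Nat.cast_sub hnpos, hNdef]; simp
  -- degrees
  have hdeg : ∀ x : Fin n, 2 * ((deg R x : ℤ) + (deg B x : ℤ)) + (mis H x : ℤ) = N := by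
    intro x
    have h1 := deg_mis hL x
    have h2 := deg_add hRB hdis x
    rw [h2] at h1
    rw [← hnN, ← h1]
    push_cast
    ring
  have hD : ((Mis H).card : ℤ) = ∑ x : Fin n, (mis H x : ℤ) := by
    rw [card_Mis]; push_cast; rfl
  set D : ℤ := ((Mis H).card : ℤ) with hDdef
  have hD0 : 0 ≤ D := Int.natCast_nonneg _
  have hHc : 6 * (H.card : ℤ) + D = (n : ℤ) * N := by
    have h1 := sum_deg' hL.three
    have h2 : ∑ x : Fin n, (2 * ((deg R x : ℤ) + (deg B x : ℤ)) + (mis H x : ℤ)) =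
        ∑ _x : Fin n, N := sum_congr rfl (fun x _ => hdeg x)
    rw [sum_add_distrib, ← mul_sum, ← hD, sum_const, card_univ, Fintype.card_fin,
      nsmul_eq_mul] at h2
    have h3 : ∑ x : Fin n, ((deg R x : ℤ) + (deg B x : ℤ)) = 3 * (H.card : ℤ) := by
      have h4 : ((∑ x : Fin n, deg H x : ℕ) : ℤ) = 3 * (H.card : ℤ) := by exact_mod_cast h1
      rw [← h4]
      push_cast
      exact sum_congr rfl fun x _ => by rw [deg_add hRB hdis x]; push_cast; ring
    rw [h3] at h2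
    linarith
  have hdegH : ∑ x : Fin n, (deg H x : ℤ) = 3 * (H.card : ℤ) := by
    exact_mod_cast sum_deg' hL.three
  -- the corrections
  set ZR := ∑ x ∈ univ.filter (fun x : Fin n => 6 * deg R x ≤ n - 1),
        (N - 4 * (deg R x : ℤ)) ^ 2 with hZR
  set ZB := ∑ x ∈ univ.filter (fun x : Fin n => 6 * deg B x ≤ n - 1),
        (N - 4 * (deg B x : ℤ)) ^ 2 with hZB
  have hZ : ZR + ZB ≤ 4 * ∑ x : Fin n, ((deg R x : ℤ) - (deg B x : ℤ)) ^ 2 + 6 * N * D := by
    have h1 : ZR + ZB = ∑ x : Fin n,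
        ((if 6 * (deg R x : ℤ) ≤ N then (N - 4 * (deg R x : ℤ)) ^ 2 else 0) +
          (if 6 * (deg B x : ℤ) ≤ N then (N - 4 * (deg B x : ℤ)) ^ 2 else 0)) := by
      rw [hZR, hZB, sum_add_distrib, sum_filter, sum_filter]
      congr 1
      · refine sum_congr rfl fun x _ => if_congr ?_ rfl rfl
        rw [← hnN]
        exact_mod_cast Iff.rfl
      · refine sum_congr rfl fun x _ => if_congr ?_ rfl rfl
        rw [← hnN]
        exact_mod_cast Iff.rfl
    rw [h1, hD, mul_sum, mul_sum, ← sum_add_distrib]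
    exact sum_le_sum fun x _ => corr (Int.natCast_nonneg _) (Int.natCast_nonneg _)
      (Int.natCast_nonneg _) (hdeg x)
  -- number of cherries
  have hCh : (n : ℤ) * (N ^ 2 - 4 * N) - 2 * N * D ≤
      8 * (((Ch R).card : ℤ) + ((Ch B).card : ℤ)) := by
    rw [chR, chB, ← sum_add_distrib, mul_sum, hD, mul_sum]
    have h0 : (n : ℤ) * (N ^ 2 - 4 * N) = ∑ _x : Fin n, (N ^ 2 - 4 * N) := by
      rw [sum_const, card_univ, Fintype.card_fin, nsmul_eq_mul]
    rw [h0, ← sum_sub_distrib]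
    apply sum_le_sum
    intro x _
    have h1 := hdeg x
    have h2 := sq_nonneg ((deg R x : ℤ) - (deg B x : ℤ))
    have hm : (0 : ℤ) ≤ (mis H x : ℤ) := Int.natCast_nonneg _
    have hr : (0 : ℤ) ≤ (deg R x : ℤ) := Int.natCast_nonneg _
    have hb : (0 : ℤ) ≤ (deg B x : ℤ) := Int.natCast_nonneg _
    set r : ℤ := (deg R x : ℤ)
    set b : ℤ := (deg B x : ℤ)
    set m : ℤ := (mis H x : ℤ)
    have h4 : N = 2 * (r + b) + m := h1.symm
    have h5 : 8 * ((r ^ 2 - r) + (b ^ 2 - b)) - (N ^ 2 - 4 * N - 2 * N * m) =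
        4 * (r - b) ^ 2 + m ^ 2 + 4 * m := by
      rw [h4]; ring
    have h6 : 0 ≤ m ^ 2 := sq_nonneg _
    linarith
  -- conclusion
  have he2 : (0 : ℤ) ≤ (e : ℤ) ^ 2 := sq_nonneg _
  have he3 : (0 : ℤ) ≤ (e : ℤ) ^ 3 := pow_nonneg (Int.natCast_nonneg _) 3
  have hRBc : (R.card : ℤ) + B.card = H.card := by
    rw [← hRB, card_union_of_disjoint hdis]; push_cast; ring
  have hsum : 4 * (((Ch R).card : ℤ) + ((Ch B).card : ℤ)) ≤
      (e : ℤ) ^ 2 * (2 * (n : ℤ) * N + 8 * (n : ℤ) * D) + (e : ℤ) ^ 3 * ((n : ℤ) * N) := by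
    have h1 : (e : ℤ) ^ 2 * ((2 * own R (Ch R) + ZR) + (2 * own B (Ch B) + ZB)) ≤
        (e : ℤ) ^ 2 * (2 * (n : ℤ) * N + 8 * (n : ℤ) * D) := by
      apply mul_le_mul_of_nonneg_left _ he2
      have hND : N * D ≤ (n : ℤ) * D := by
        apply mul_le_mul_of_nonneg_right _ hD0
        linarith
      rw [hdegH] at hg
      linarith
    have h2 : 6 * (e : ℤ) ^ 3 * (R.card : ℤ) + 6 * (e : ℤ) ^ 3 * (B.card : ℤ) ≤
        (e : ℤ) ^ 3 * ((n : ℤ) * N) := by
      have h3 : 6 * ((R.card : ℤ) + B.card) ≤ (n : ℤ) * N := by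
        rw [hRBc]; linarith
      have := mul_le_mul_of_nonneg_left h3 he3
      linarith
    linarith
  have hDe : 33 * (e : ℤ) ^ 2 * D ≤ (n : ℤ) * N := by
    have h1 : 33 * (e : ℤ) ^ 2 * ((n : ℤ) * N) ≤ (n : ℤ) * N +
        33 * (e : ℤ) ^ 2 * (6 * (H.card : ℤ)) := by
      rw [← hnN]
      exact_mod_cast hH
    have h2 : 33 * (e : ℤ) ^ 2 * ((n : ℤ) * N) =
        33 * (e : ℤ) ^ 2 * (6 * (H.card : ℤ)) + 33 * (e : ℤ) ^ 2 * D := by
      rw [← hHc]; ring
    linarith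
  have heZ : (3 : ℤ) ≤ (e : ℤ) := by exact_mod_cast he
  have hnZ : 20 * (e : ℤ) ^ 3 ≤ (n : ℤ) := by exact_mod_cast hn
  have hn0 : (0 : ℤ) < (n : ℤ) := by exact_mod_cast hnpos
  -- `n N (n - 5 - 4 e² - 2 e³) ≤ (16 e² + 2) n D`
  have hfin : (n : ℤ) * (N * (N - 4 - (4 * (e : ℤ) ^ 2 + 2 * (e : ℤ) ^ 3))) ≤
      (n : ℤ) * ((16 * (e : ℤ) ^ 2 + 2) * D) := by
    have hND : 2 * N * D ≤ 2 * (n : ℤ) * D := by
      apply mul_le_mul_of_nonneg_right _ hD0
      linarith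
    nlinarith
  have hfin' : N * (N - 4 - (4 * (e : ℤ) ^ 2 + 2 * (e : ℤ) ^ 3)) ≤
      (16 * (e : ℤ) ^ 2 + 2) * D := le_of_mul_le_mul_left hfin hn0
  have he2' : (9 : ℤ) ≤ (e : ℤ) ^ 2 := by nlinarith
  have he3' : 3 * (e : ℤ) ^ 2 ≤ (e : ℤ) ^ 3 := by nlinarith
  -- `2 (16 e² + 2) D ≤ 33 e² D ≤ n N`
  have h7 : 2 * ((16 * (e : ℤ) ^ 2 + 2) * D) ≤ (n : ℤ) * N := by
    have : 2 * (16 * (e : ℤ) ^ 2 + 2) ≤ 33 * (e : ℤ) ^ 2 := by linarith
    have := mul_le_mul_of_nonneg_right this hD0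
    linarith
  have hNpos : 0 < N := by linarith
  have h8 : 2 * (N * (N - 4 - (4 * (e : ℤ) ^ 2 + 2 * (e : ℤ) ^ 3))) ≤ (n : ℤ) * N := by linarith
  have h9 : N * (2 * (N - 4 - (4 * (e : ℤ) ^ 2 + 2 * (e : ℤ) ^ 3))) ≤ N * (n : ℤ) := by linarith
  have h10 := le_of_mul_le_mul_left h9 hNpos
  have h11 : N = (n : ℤ) - 1 := hNdef
  linarith

end Pool.Agent.Helper89.TC
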