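import Pool.Agent.Helper89.TC.Mis

/-!
# Project TC: Goodman's count with missing pairs
-/

set_option autoImplicit false

namespace Pool.Agent.Helper89.TC

open Finset Pool.Agent.BR2

variable {n : ℕ} {H R B : Finset (Finset (Fin n))}

private theorem g_card (g : Finset (Fin n)) : g.card = ∑ x, if x ∈ g then 1 else 0 := by
  rw [Finset.sum_ite_mem, univ_inter, card_eq_sum_ones]

private theorem g_deg (A : Finset (Finset (Fin n))) (x : Fin n) :
    deg A x = ∑ g ∈ A, if x ∈ g then 1 else 0 := by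
  rw [deg, card_filter]

private theorem g_inter (A B : Finset (Finset (Fin n))) :
    ∑ g ∈ A, ∑ l ∈ B, (g ∩ l).card = ∑ x, deg A x * deg B x := by
  have e1 : ∀ x, deg A x * deg B x = ∑ g ∈ A, ∑ l ∈ B, if x ∈ g ∩ l then 1 else 0 := by
    intro x
    rw [g_deg, g_deg, sum_mul_sum]
    apply sum_congr rfl
    intro g _
    apply sum_congr rfl
    intro l _
    by_cases h1 : x ∈ g <;> by_cases h2 : x ∈ l <;> simp [h1, h2]
  simp only [e1, g_card (_ ∩ _)]
  symm
  rw [sum_comm]
  apply sum_congr rfl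
  intro g _
  rw [sum_comm]

theorem deg_add (hRB : R ∪ B = H) (hd : Disjoint R B) (x : Fin n) :
    deg H x = deg R x + deg B x := by
  rw [g_deg, g_deg, g_deg, ← hRB, sum_union hd]

open scoped Classical in
/-- the number of ordered triangles with lines in three given sets -/
private noncomputable def NN (H A B C : Finset (Finset (Fin n))) : ℕ :=
  ∑ g ∈ A, ∑ l ∈ B, ∑ k ∈ C, if Tri H g l k then 1 else 0

private theorem NN_swap12 (H A B C : Finset (Finset (Fin n))) : NN H A B C = NN H B A C := by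
  classical
  unfold NN
  rw [sum_comm]
  refine sum_congr rfl fun g _ => sum_congr rfl fun l _ => sum_congr rfl fun k _ => ?_
  exact if_congr ⟨fun h => h.swap12, fun h => h.swap12⟩ rfl rfl

private theorem NN_swap23 (H A B C : Finset (Finset (Fin n))) : NN H A B C = NN H A C B := by
  classical
  unfold NN
  refine sum_congr rfl fun g _ => ?_
  rw [sum_comm]
  refine sum_congr rfl fun l _ => sum_congr rfl fun k _ => ?_
  exact if_congr ⟨fun h => h.swap23, fun h => h.swap23⟩ rfl rfl

private theorem NN_union (H A A' B C : Finset (Finset (Fin n))) (h : Disjoint A A') :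
    NN H (A ∪ A') B C = NN H A B C + NN H A' B C := by
  unfold NN
  rw [sum_union h]

private theorem NN_t (H A B : Finset (Finset (Fin n))) :
    NN H A B H = ∑ g ∈ A, ∑ l ∈ B, t H (g, l) := by
  classical
  unfold NN t
  refine sum_congr rfl fun g _ => sum_congr rfl fun l _ => ?_
  rw [card_filter]

private theorem NN_sub {H R : Finset (Finset (Fin n))} (hR : R ⊆ H) :
    NN H R R R = NN R R R R := by
  classical
  unfold NN
  refine sum_congr rfl fun g hg => sum_congr rfl fun l hl => sum_congr rfl fun k hk => ?_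
  have : Tri H g l k ↔ Tri R g l k :=
    ⟨fun h => ⟨hg, hl, hk, h.2.2.2⟩, fun h => h.mono hR⟩
  simp only [this]

private theorem sum_Ch (R : Finset (Finset (Fin n))) : ∑ w ∈ Ch R, t R w = NN R R R R := by
  classical
  rw [NN_t, ← sum_product (s := R) (t := R) (f := fun w => t R w)]
  apply sum_subset
  · exact filter_subset _ _
  · intro w hw hw'
    rw [t, card_eq_zero, filter_eq_empty_iff]
    intro k _ h
    exact hw' h.Ch12

private theorem NN_own (R : Finset (Finset (Fin n))) :
    own R (Ch R) = 2 * ((Ch R).card : ℤ) - (NN R R R R : ℤ) := by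
  rw [← sum_Ch, own, sum_sub_distrib, sum_const, nsmul_eq_mul]
  push_cast
  ring

private theorem t_le (hH : Lin H) {g l : Finset (Fin n)} (hg : g ∈ H) (hl : l ∈ H)
    (hgl : g ≠ l) : t H (g, l) ≤ 4 * (g ∩ l).card := by
  classical
  by_cases hne : (g ∩ l).Nonempty
  · have hc : (g, l) ∈ Ch H := mem_Ch.2 ⟨hg, hl, hgl, hne⟩
    have h1 := inter_card_one hH hc
    have h2 := t_le_four hH hc
    simp only at h1
    rw [h1]
    omega
  · rw [not_nonempty_iff_eq_empty] at hne
    have h0 : t H (g, l) = 0 := by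
      rw [t, card_eq_zero, filter_eq_empty_iff]
      rintro k _ ⟨_, _, _, h, _⟩
      simp [hne] at h
    omega

/-- **Goodman's count with missing pairs.** -/
theorem goodman (hL : Lin H) (hRB : R ∪ B = H) (hd : Disjoint R B) :
    2 * (own R (Ch R) + own B (Ch B)) + 4 * ∑ x : Fin n, ((deg R x : ℤ) - (deg B x : ℤ)) ^ 2 ≤
      4 * ∑ x : Fin n, (deg H x : ℤ) + 2 * (n : ℤ) * ((Mis H).card : ℤ) := by
  classical
  have hR : R ⊆ H := hRB ▸ subset_union_left
  have hB : B ⊆ H := hRB ▸ subset_union_right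
  have d1 : NN H H H H = NN H R R R + 3 * NN H R R B + 3 * NN H R B B + NN H B B B := by
    have e1 : ∀ X Y, NN H H X Y = NN H R X Y + NN H B X Y := fun X Y => by
      have h := NN_union H R B X Y hd
      rwa [hRB] at h
    have e2 : ∀ X Y, NN H X H Y = NN H X R Y + NN H X B Y := fun X Y => by
      rw [NN_swap12, e1, NN_swap12, NN_swap12 H B]
    have e3 : ∀ X Y, NN H X Y H = NN H X Y R + NN H X Y B := fun X Y => by
      rw [NN_swap23, e2, NN_swap23, NN_swap23 H X B]
    rw [e1, e2, e2, e3, e3, e3, e3, NN_swap23 H R B R, NN_swap12 H B R R, NN_swap23 H R B R,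
      NN_swap12 H B R B, NN_swap23 H B B R, NN_swap12 H B R B]
    ring
  have d2 : NN H R B H = NN H R R B + NN H R B B := by
    have : NN H R B H = NN H R H B := NN_swap23 _ _ _ _
    have h := NN_union H R B R B hd
    rw [hRB] at h
    rw [this, NN_swap12, h, NN_swap12 H B R B]
  have d3 : 4 * (Ch H).card ≤ NN H H H H + n * (Mis H).card := by
    have h1 : ∑ w ∈ Ch H, 4 ≤ ∑ w ∈ Ch H,
        (t H w + (((w.1 \ w.2) ×ˢ (w.2 \ w.1)) ∩ Mis H).card) :=
      sum_le_sum fun w hw => four_le hL hw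
    rw [sum_const, smul_eq_mul, sum_add_distrib, sum_Ch] at h1
    have h2 := sum_miss hL
    omega
  have d4 : NN H R B H ≤ 4 * ∑ x, deg R x * deg B x := by
    rw [NN_t, ← g_inter, mul_sum]
    refine sum_le_sum fun g hg => ?_
    rw [mul_sum]
    refine sum_le_sum fun l hl => ?_
    refine t_le hL (hR hg) (hB hl) ?_
    rintro rfl
    exact (disjoint_left.1 hd) hg hl
  have o1 := NN_own R
  have o2 := NN_own B
  rw [← NN_sub hR] at o1
  rw [← NN_sub hB] at o2
  have c1 := card_Ch (hL.mono hR)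
  have c2 := card_Ch (hL.mono hB)
  have c3 := card_Ch hL
  have key : 4 * ((Ch H).card : ℤ) - 12 * ∑ x, (deg R x : ℤ) * deg B x -
      (n : ℤ) * ((Mis H).card : ℤ) ≤ (NN H R R R : ℤ) + NN H B B B := by
    have z1 : (NN H H H H : ℤ) = NN H R R R + 3 * NN H R R B + 3 * NN H R B B + NN H B B B := by
      exact_mod_cast d1
    have z2 : (NN H R B H : ℤ) = NN H R R B + NN H R B B := by exact_mod_cast d2
    have z3 : 4 * ((Ch H).card : ℤ) ≤ (NN H H H H : ℤ) + (n : ℤ) * ((Mis H).card : ℤ) := by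
      exact_mod_cast d3
    have z4 : (NN H R B H : ℤ) ≤ 4 * ∑ x, (deg R x : ℤ) * deg B x := by exact_mod_cast d4
    linarith
  have hsum : ∑ x : Fin n, (4 * ((deg R x : ℤ) ^ 2 - deg R x) + 4 * ((deg B x : ℤ) ^ 2 - deg B x) -
      8 * ((deg H x : ℤ) ^ 2 - deg H x) + 24 * ((deg R x : ℤ) * deg B x)) +
      4 * ∑ x : Fin n, ((deg R x : ℤ) - (deg B x : ℤ)) ^ 2 = 4 * ∑ x : Fin n, (deg H x : ℤ) := by
    rw [mul_sum, mul_sum, ← sum_add_distrib]
    refine sum_congr rfl fun x _ => ?_
    have h2 : (deg H x : ℤ) = deg R x + deg B x := by exact_mod_cast deg_add hRB hd x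
    rw [h2]
    ring
  have e : 2 * (own R (Ch R) + own B (Ch B)) ≤ ∑ x : Fin n,
      (4 * ((deg R x : ℤ) ^ 2 - deg R x) + 4 * ((deg B x : ℤ) ^ 2 - deg B x) -
        8 * ((deg H x : ℤ) ^ 2 - deg H x) + 24 * ((deg R x : ℤ) * deg B x)) +
        2 * (n : ℤ) * ((Mis H).card : ℤ) := by
    rw [o1, o2]
    simp only [sum_add_distrib, sum_sub_distrib, ← mul_sum] at c1 c2 c3 key ⊢
    linarith
  linarith

end Pool.Agent.Helper89.TC
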