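import Pool.Agent.BR2.COL
import Pool.Agent.BR2.GDM

/-!
# Project TC: missing pairs of a linear 3-graph

`Mis H` is the set of ordered pairs which lie in no line of `H`. For a linear system every point `x`
satisfies `2 deg x + mis x = n - 1`; a cherry which is not in four triangles has a missing cross pair,
and every missing pair lies across at most `n` cherries.
-/

set_option autoImplicit false

namespace Pool.Agent.Helper89.TC

open Finset Pool.Agent.BR2

variable {n : ℕ} {H R B : Finset (Finset (Fin n))}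

/-- The number of points which lie on no line together with `x`. -/
def mis (H : Finset (Finset (Fin n))) (x : Fin n) : ℕ :=
  (univ.filter (fun y => x ≠ y ∧ ∀ l ∈ H, ¬ (x ∈ l ∧ y ∈ l))).card

/-- The ordered pairs which lie in no line. -/
def Mis (H : Finset (Finset (Fin n))) : Finset (Fin n × Fin n) :=
  univ.filter (fun q => q.1 ≠ q.2 ∧ ∀ l ∈ H, ¬ (q.1 ∈ l ∧ q.2 ∈ l))

theorem card_Mis : (Mis H).card = ∑ x, mis H x := by
  unfold Mis mis
  simp only [card_filter]
  rw [← univ_product_univ, sum_product]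

theorem deg_mis (hH : Lin H) (x : Fin n) : 2 * deg H x + mis H x = n - 1 := by
  classical
  have e1 : (H.filter (fun l => x ∈ l)).biUnion (fun l => l.erase x) ∪
      univ.filter (fun y => x ≠ y ∧ ∀ l ∈ H, ¬ (x ∈ l ∧ y ∈ l)) = univ.erase x := by
    ext y
    simp only [mem_union, mem_biUnion, mem_filter, mem_erase, mem_univ, and_true, true_and]
    constructor
    · rintro (⟨l, _, h, _⟩ | ⟨h, _⟩)
      · exact h
      · exact fun h' => h h'.symm
    · intro h
      by_cases h1 : ∃ l ∈ H, x ∈ l ∧ y ∈ l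
      · obtain ⟨l, hl, hx, hy⟩ := h1
        exact Or.inl ⟨l, ⟨hl, hx⟩, h, hy⟩
      · push Not at h1
        refine Or.inr ⟨fun h' => h h'.symm, fun l hl hxy => h1 l hl hxy.1 hxy.2⟩
  have hdis : Disjoint ((H.filter (fun l => x ∈ l)).biUnion (fun l => l.erase x))
      (univ.filter (fun y => x ≠ y ∧ ∀ l ∈ H, ¬ (x ∈ l ∧ y ∈ l))) := by
    rw [disjoint_left]
    intro y hy hy'
    obtain ⟨l, hl, hyl⟩ := mem_biUnion.1 hy
    rw [mem_filter] at hl hy'
    exact hy'.2.2 l hl.1 ⟨hl.2, (mem_erase.1 hyl).2⟩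
  have e2 := congrArg Finset.card e1
  rw [card_union_of_disjoint hdis, card_biUnion, card_erase_of_mem (mem_univ x), card_univ,
    Fintype.card_fin] at e2
  · rw [← e2, deg, mis, sum_congr rfl (g := fun _ => 2), sum_const, smul_eq_mul, mul_comm]
    intro l hl
    rw [mem_filter] at hl
    rw [card_erase_of_mem hl.2, hH.three l hl.1]
  · intro l hl k hk hne
    rw [mem_coe, mem_filter] at hl hk
    rw [Function.onFun, disjoint_left]
    intro y hy hy'
    rw [mem_erase] at hy hy'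
    exact hne (hH.eq_of_two hl.1 hk.1 (Ne.symm hy.1) hl.2 hy.2 hk.2 hy'.2)

/-- A cherry is in four triangles, up to its missing cross pairs. -/
theorem four_le (hH : Lin H) {w : Finset (Fin n) × Finset (Fin n)} (hw : w ∈ Ch H) :
    4 ≤ t H w + (((w.1 \ w.2) ×ˢ (w.2 \ w.1)) ∩ Mis H).card := by
  classical
  obtain ⟨hg, hl, hgl, hne⟩ := mem_Ch.1 hw
  have hc1 := inter_card_one hH hw
  have hcg : (w.1 \ w.2).card = 2 := by
    have := card_sdiff_add_card_inter w.1 w.2
    rw [hc1, hH.three _ hg] at this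
    omega
  have hcl : (w.2 \ w.1).card = 2 := by
    have := card_sdiff_add_card_inter w.2 w.1
    rw [inter_comm, hc1, hH.three _ hl] at this
    omega
  have hprod : ((w.1 \ w.2) ×ˢ (w.2 \ w.1)).card = 4 := by
    rw [card_product, hcg, hcl]
  have hxy : ∀ q ∈ (w.1 \ w.2) ×ˢ (w.2 \ w.1), q.1 ≠ q.2 := by
    intro q hq heq
    rw [mem_product, mem_sdiff, mem_sdiff] at hq
    exact hq.1.2 (heq ▸ hq.2.1)
  have hsplit := card_inter_add_card_sdiff ((w.1 \ w.2) ×ˢ (w.2 \ w.1)) (Mis H)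
  rw [hprod] at hsplit
  have hmain : (((w.1 \ w.2) ×ˢ (w.2 \ w.1)) \ Mis H).card ≤ t H w := by
    have hex : ∀ q ∈ ((w.1 \ w.2) ×ˢ (w.2 \ w.1)) \ Mis H, ∃ k ∈ H, q.1 ∈ k ∧ q.2 ∈ k := by
      intro q hq
      rw [mem_sdiff] at hq
      by_contra hcon
      push Not at hcon
      apply hq.2
      exact mem_filter.2 ⟨mem_univ _, hxy q hq.1, fun l hl h => hcon l hl h.1 h.2⟩
    unfold t
    refine Finset.card_le_card_of_injOn
      (fun q => if hq : q ∈ ((w.1 \ w.2) ×ˢ (w.2 \ w.1)) \ Mis H then (hex q hq).choose else ∅)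
      ?_ ?_
    · intro q hq
      rw [mem_coe] at hq
      simp only [hq, dif_pos]
      obtain ⟨hkH, hx, hy⟩ := (hex q hq).choose_spec
      set k := (hex q hq).choose
      rw [mem_sdiff, mem_product, mem_sdiff, mem_sdiff] at hq
      obtain ⟨⟨⟨hxg, hxl⟩, ⟨hyl, hyg⟩⟩, -⟩ := hq
      refine mem_coe.2 (mem_filter.2 ⟨hkH, hg, hl, hkH, hne, ⟨q.2, mem_inter.2 ⟨hyl, hy⟩⟩,
        ⟨q.1, mem_inter.2 ⟨hxg, hx⟩⟩, ?_⟩)
      by_contra hcon
      obtain ⟨p, hp⟩ := nonempty_iff_ne_empty.2 hcon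
      rw [mem_inter, mem_inter] at hp
      have hpx : p ≠ q.1 := fun h => hxl (h ▸ hp.1.2)
      have := hH.eq_of_two hg hkH hpx hp.1.1 hxg hp.2 hx
      exact hyg (this ▸ hy)
    · intro q hq q' hq' heq
      rw [mem_coe] at hq hq'
      simp only [hq, hq', dif_pos] at heq
      obtain ⟨hkH, hx, hy⟩ := (hex q hq).choose_spec
      obtain ⟨hkH', hx', hy'⟩ := (hex q' hq').choose_spec
      rw [← heq] at hx' hy'
      set k := (hex q hq).choose
      rw [mem_sdiff, mem_product, mem_sdiff, mem_sdiff] at hq hq'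
      obtain ⟨⟨⟨hxg, hxl⟩, ⟨hyl, hyg⟩⟩, -⟩ := hq
      obtain ⟨⟨⟨hxg', hxl'⟩, ⟨hyl', hyg'⟩⟩, -⟩ := hq'
      apply Prod.ext
      · by_contra hcon
        have := hH.eq_of_two hg hkH hcon hxg hxg' hx hx'
        exact hyg (this ▸ hy)
      · by_contra hcon
        have := hH.eq_of_two hl hkH hcon hyl hyl' hy hy'
        exact hxl (this ▸ hx)
  omega

/-- Every missing pair lies across at most `n` cherries. -/
theorem sum_miss (hH : Lin H) :
    ∑ w ∈ Ch H, (((w.1 \ w.2) ×ˢ (w.2 \ w.1)) ∩ Mis H).card ≤ n * (Mis H).card := by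
  classical
  have h1 : ∀ w ∈ Ch H, (((w.1 \ w.2) ×ˢ (w.2 \ w.1)) ∩ Mis H).card =
      ∑ q ∈ Mis H, if q ∈ (w.1 \ w.2) ×ˢ (w.2 \ w.1) then 1 else 0 := by
    intro w _
    rw [← card_filter, inter_comm, filter_mem_eq_inter]
  rw [sum_congr rfl h1, sum_comm, mul_comm, ← smul_eq_mul]
  refine sum_le_card_nsmul _ _ _ fun q _ => ?_
  rw [← card_filter]
  by_cases hn : n = 0
  · subst hn
    exact Fin.elim0 q.1
  have hz : ∀ w ∈ (Ch H).filter (fun w => q ∈ (w.1 \ w.2) ×ˢ (w.2 \ w.1)),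
      (w.1 ∩ w.2).Nonempty := fun w hw => (mem_Ch.1 (mem_filter.1 hw).1).2.2.2
  have h2 : ((Ch H).filter (fun w => q ∈ (w.1 \ w.2) ×ˢ (w.2 \ w.1))).card ≤
      (univ : Finset (Fin n)).card := by
    refine Finset.card_le_card_of_injOn
      (fun w => if hw : (w.1 ∩ w.2).Nonempty then hw.choose else q.1) (fun _ _ => by simp) ?_
    intro w hw w' hw' heq
    have e1 := hz w hw
    have e2 := hz w' hw'
    simp only [e1, e2, dif_pos] at heq
    have s1 := e1.choose_spec
    have s2 := e2.choose_spec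
    rw [← heq] at s2
    set z := e1.choose
    rw [mem_inter] at s1 s2
    rw [mem_coe, mem_filter, mem_product, mem_sdiff, mem_sdiff] at hw hw'
    obtain ⟨hwC, ⟨hx1, hx2⟩, ⟨hy1, hy2⟩⟩ := hw
    obtain ⟨hwC', ⟨hx1', hx2'⟩, ⟨hy1', hy2'⟩⟩ := hw'
    obtain ⟨hg, hl, -, -⟩ := mem_Ch.1 hwC
    obtain ⟨hg', hl', -, -⟩ := mem_Ch.1 hwC'
    apply Prod.ext
    · have hne : q.1 ≠ z := fun h => hx2 (by rw [h]; exact s1.2)
      exact hH.eq_of_two hg hg' hne hx1 s1.1 hx1' s2.1
    · have hne : q.2 ≠ z := fun h => hy2 (by rw [h]; exact s1.1)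
      exact hH.eq_of_two hl hl' hne hy1 s1.2 hy1' s2.2
  rwa [card_univ, Fintype.card_fin] at h2

end Pool.Agent.Helper89.TC
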